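import Mathlib
import Pool.Agent.H637R3.UC.Assemble

set_option autoImplicit false

namespace Pool.Agent.Results.MP_163ab5_co.DenseFamilies

/-- A union-closed family containing at least `9/20` of all subsets of its universe `U` and
without an element in more than half of its members has `2 ^ |U|` or `2 ^ (|U| - 1)` members. -/
theorem result {α : Type*} [DecidableEq α] (A : Finset (Finset α))
    (huc : ∀ X ∈ A, ∀ Y ∈ A, X ∪ Y ∈ A)
    (hd : 9 * 2 ^ (A.sup id).card ≤ 20 * A.card)
    (hle : ∀ i ∈ A.sup id, 2 * (A.filter (fun S => i ∈ S)).card ≤ A.card) :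
    A.card = 2 ^ (A.sup id).card ∨ 2 * A.card = 2 ^ (A.sup id).card :=
  Pool.Agent.H637R3.UC.dense_tight A huc hd hle

end Pool.Agent.Results.MP_163ab5_co.DenseFamilies
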