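import Mathlib
import Pool.Agent.H200R3.Tight

set_option autoImplicit false

/-!
# Tight union-closed families of order dimension at most four

A union-closed family in which every element lies in at most half of the members (in particular a
tight one) has a power of two many members, if its order dimension is at most four, or if it has a
transversal of size four with tree fibres.  No separation of points is assumed.
-/

namespace Pool.Agent.Results.MP_163ab5_co.TreeTransversal

/-- `S` contains `t i` and none of the three other `t l`. -/
def Private (t : Fin 4 → ℕ) (i : Fin 4) (S : Finset ℕ) : Prop :=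
  t i ∈ S ∧ ∀ l, l ≠ i → t l ∉ S

/-- There are four elements `t i` (repetitions allowed) such that every nonempty member of `A`
contains one of them and such that, for every `i`, the members of `A` containing `t i` and none of
the three others form a tree: among them, those containing a given one form a chain. -/
def FourTree (A : Finset (Finset ℕ)) : Prop :=
  ∃ t : Fin 4 → ℕ, (∀ S ∈ A, S.Nonempty → ∃ i, t i ∈ S) ∧
    ∀ i, ∀ S ∈ A, ∀ S' ∈ A, ∀ S'' ∈ A, Private t i S → Private t i S' → Private t i S'' →
      S ⊆ S' → S ⊆ S'' → S' ⊆ S'' ∨ S'' ⊆ S'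

/-- The family `A`, ordered by inclusion, has order dimension at most `d`: it embeds (as an ordered
set) in a product of `d` chains. -/
def OrderDimLE (A : Finset (Finset ℕ)) (d : ℕ) : Prop :=
  ∃ f : Finset ℕ → Fin d → ℕ, ∀ X ∈ A, ∀ Y ∈ A, X ⊆ Y ↔ ∀ i, f X i ≤ f Y i

theorem result (A : Finset (Finset ℕ)) (hne : A.Nonempty)
    (hU : ∀ X ∈ A, ∀ Y ∈ A, X ∪ Y ∈ A)
    (htight : ∀ x : ℕ, 2 * (A.filter (fun S => x ∈ S)).card ≤ A.card)
    (hT : FourTree A ∨ OrderDimLE A 4) :
    ∃ k : ℕ, A.card = 2 ^ k := by
  rcases hT with hT | hdim
  · exact Pool.Agent.H200R3.Tight.tight A hne hU htight hT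
  · exact Pool.Agent.H200R3.Tight.tight A hne hU htight
      (Pool.Agent.H200R3.TreeFib.fourTree_of_dim A hU hdim)

end Pool.Agent.Results.MP_163ab5_co.TreeTransversal
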